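import Mathlib

open Set Filter Topology
open scoped ENNReal NNReal RealInnerProductSpace

namespace Pool.Agent.Results.MP_b41e65_an.Projections

/-- Euclidean `d`-space. -/
abbrev E (d : ℕ) : Type := EuclideanSpace ℝ (Fin d)

/-- The orthogonal group `O(d)`: the linear isometries of `ℝ^d`. -/
abbrev Orth (d : ℕ) : Type := E d ≃ₗᵢ[ℝ] E d

/-- `F` is the self-similar set of the similarities `x ↦ c_i O_i x + t_i`. -/
def IsAttractor {d : ℕ} {ι : Type} (c : ι → ℝ) (O : ι → Orth d) (t : ι → E d)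
    (F : Set (E d)) : Prop :=
  F.Nonempty ∧ IsCompact F ∧ F = ⋃ i, (fun x => c i • O i x + t i) '' F

/-- Dense rotations: the closure of the group generated by the `O_i` contains `SO(d)`. -/
def DenseRotations {d : ℕ} {ι : Type} (O : ι → Orth d) : Prop :=
  ∀ R : Orth d, LinearMap.det R.toLinearMap = 1 → ∀ ε : ℝ, 0 < ε →
    ∃ g ∈ Subgroup.closure (Set.range O), ∀ x, ‖g x - R x‖ ≤ ε * ‖x‖

/-- `N_r(F)`: the least number of open sets of diameter at most `r` that cover `F`. -/
noncomputable def coverNum {X : Type*} [PseudoMetricSpace X] (r : ℝ) (F : Set X) : ℕ :=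
  sInf {k : ℕ | ∃ U : Fin k → Set X, F ⊆ ⋃ i, U i ∧
    ∀ i, IsOpen (U i) ∧ ∀ x ∈ U i, ∀ y ∈ U i, dist x y ≤ r}

/-- The bound in the definition of the Assouad dimension. -/
def AssouadBound {X : Type*} [PseudoMetricSpace X] (F : Set X) (s : ℝ) : Prop :=
  ∃ C : ℝ, 0 < C ∧ ∀ x ∈ F, ∀ r R : ℝ, 0 < r → r < R →
    (coverNum r (Metric.ball x R ∩ F) : ℝ) ≤ C * (R / r) ^ s

/-- The Assouad dimension. -/
noncomputable def dimA {X : Type*} [PseudoMetricSpace X] (F : Set X) : ℝ≥0∞ :=
  ⨅ (s : ℝ≥0) (_ : AssouadBound F s), (s : ℝ≥0∞)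

/-! ### Closeness of orthogonal maps -/

section near
variable {d : ℕ}

/-- `A` and `B` are within `η` of each other in operator norm. -/
def Near (A B : Orth d) (η : ℝ) : Prop := ∀ x, ‖A x - B x‖ ≤ η * ‖x‖

lemma near_refl (A : Orth d) {η : ℝ} (h : 0 ≤ η) : Near A A η := fun x => by
  rw [sub_self, norm_zero]
  positivity

lemma Near.symm {A B : Orth d} {η : ℝ} (h : Near A B η) : Near B A η := fun x => by
  rw [norm_sub_rev]
  exact h x

lemma Near.mono {A B : Orth d} {η θ : ℝ} (h : Near A B η) (h2 : η ≤ θ) : Near A B θ :=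
  fun x => (h x).trans (by gcongr)

lemma Near.trans {A B C : Orth d} {η θ : ℝ} (h : Near A B η) (h2 : Near B C θ) :
    Near A C (η + θ) := fun x => by
  have e : A x - C x = (A x - B x) + (B x - C x) := by abel
  rw [e, add_mul]
  exact (norm_add_le _ _).trans (add_le_add (h x) (h2 x))

lemma Near.mul {A A' B B' : Orth d} {η θ : ℝ} (h : Near A A' η) (h2 : Near B B' θ) :
    Near (A * B) (A' * B') (η + θ) := fun x => by
  have e : (A * B) x - (A' * B') x = A (B x - B' x) + (A (B' x) - A' (B' x)) := by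
    simp [LinearIsometryEquiv.coe_mul]
  rw [e]
  refine (norm_add_le _ _).trans ?_
  rw [LinearIsometryEquiv.norm_map]
  have h3 := h (B' x)
  rw [LinearIsometryEquiv.norm_map] at h3
  linarith [h2 x, add_mul η θ ‖x‖]

lemma Near.inv {A B : Orth d} {η : ℝ} (h : Near A B η) : Near A⁻¹ B⁻¹ η := fun x => by
  have e : ‖A⁻¹ x - B⁻¹ x‖ = ‖A (A⁻¹ x - B⁻¹ x)‖ := (LinearIsometryEquiv.norm_map _ _).symm
  have e2 : A (A⁻¹ x - B⁻¹ x) = B (B⁻¹ x) - A (B⁻¹ x) := by
    rw [map_sub]
    congr 1
    · simp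
  rw [e, e2, norm_sub_rev]
  have := h (B⁻¹ x)
  rwa [LinearIsometryEquiv.norm_map B⁻¹] at this

/-- Powers of an orthogonal map return to the identity. -/
lemma recur (R : Orth d) {η : ℝ} (hη : 0 < η) : ∃ n : ℕ, 0 < n ∧ Near (R ^ n) 1 η := by
  set u : ℕ → (E d →L[ℝ] E d) := fun n => ((R ^ n).toContinuousLinearEquiv : E d →L[ℝ] E d)
    with hu
  have hub : ∀ n, u n ∈ Metric.closedBall (0 : E d →L[ℝ] E d) 1 := by
    intro n
    rw [mem_closedBall_zero_iff]
    refine ContinuousLinearMap.opNorm_le_bound _ zero_le_one fun x => ?_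
    rw [one_mul]
    exact (LinearIsometryEquiv.norm_map (R ^ n) x).le
  obtain ⟨a, -, φ, hφ, hlim⟩ := (isCompact_closedBall (0 : E d →L[ℝ] E d) 1).tendsto_subseq hub
  have hc := hlim.cauchySeq
  rw [Metric.cauchySeq_iff'] at hc
  obtain ⟨N, hN⟩ := hc η hη
  have h1 := hN (N + 1) (by omega)
  have hlt : φ N < φ (N + 1) := hφ (by omega)
  refine ⟨φ (N + 1) - φ N, by omega, ?_⟩
  have h2 : Near (R ^ φ (N + 1)) (R ^ φ N) η := by
    intro x
    have h3 : (R ^ φ (N + 1)) x - (R ^ φ N) x = (u (φ (N + 1)) - u (φ N)) x := by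
      simp [hu]
    rw [h3]
    refine (ContinuousLinearMap.le_opNorm _ _).trans ?_
    rw [Function.comp, dist_eq_norm] at h1
    gcongr
    exact h1.le
  have h3 := h2.mul (near_refl (R ^ φ N)⁻¹ (le_refl 0))
  rw [mul_inv_cancel, add_zero, ← pow_sub R hlt.le] at h3
  exact h3

/-- Reflection in the hyperplane orthogonal to a unit vector. -/
noncomputable def refl (m : E d) : Orth d := (ℝ ∙ m)ᗮ.reflection

lemma refl_apply {m : E d} (hm : ‖m‖ = 1) (x : E d) : refl m x = x - (2 * ⟪m, x⟫) • m := by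
  rw [refl, Submodule.reflection_orthogonal_apply, Submodule.reflection_singleton_apply]
  simp only [hm, RCLike.ofReal_real_eq_id, id_eq, one_pow, div_one, neg_sub]
  rw [mul_smul, two_smul ℕ, two_smul ℝ]

lemma det_refl {m : E d} (hm : ‖m‖ = 1) : LinearMap.det (refl m).toLinearMap = -1 := by
  have h0 : m ≠ 0 := by
    rintro rfl
    simp at hm
  have h1 : Module.finrank ℝ ((ℝ ∙ m)ᗮᗮ : Submodule ℝ (E d)) = 1 := by
    rw [Submodule.orthogonal_orthogonal]
    exact finrank_span_singleton h0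
  have h2 := Submodule.det_reflection (K := (ℝ ∙ m)ᗮ)
  rw [h1, pow_one] at h2
  exact h2

lemma det_mul' (A B : Orth d) : LinearMap.det (A * B).toLinearMap =
    LinearMap.det A.toLinearMap * LinearMap.det B.toLinearMap := by
  rw [← map_mul]
  rfl

/-- A small rotation moving one unit vector to a nearby one. -/
lemma exists_rot {p q : E d} (hp : ‖p‖ = 1) (hq : ‖q‖ = 1) (hpq : p + q ≠ 0) :
    ∃ ρ : Orth d, LinearMap.det ρ.toLinearMap = 1 ∧ ρ p = q ∧ Near ρ 1 (4 * ‖p - q‖) := by
  set s : ℝ := ‖p + q‖ with hs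
  have hs0 : 0 < s := norm_pos_iff.mpr hpq
  set m : E d := s⁻¹ • (p + q) with hm
  have hm1 : ‖m‖ = 1 := by
    rw [hm, norm_smul, norm_inv, Real.norm_eq_abs, abs_of_pos hs0, ← hs]
    exact inv_mul_cancel₀ hs0.ne'
  have hpp : ⟪p, p⟫ = 1 := by rw [real_inner_self_eq_norm_sq, hp, one_pow]
  have hqq : ⟪q, q⟫ = 1 := by rw [real_inner_self_eq_norm_sq, hq, one_pow]
  have hss : s ^ 2 = 2 + 2 * ⟪p, q⟫ := by
    rw [hs, ← real_inner_self_eq_norm_sq, inner_add_left, inner_add_right, inner_add_right, hpp,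
      hqq, real_inner_comm p q]
    ring
  have hmp : ⟪m, p⟫ = s / 2 := by
    rw [hm, inner_smul_left, inner_add_left, hpp, real_inner_comm p q]
    simp only [conj_trivial]
    field_simp
    linarith
  refine ⟨refl m * refl p, ?_, ?_, ?_⟩
  · rw [det_mul', det_refl hm1, det_refl hp]
    norm_num
  · rw [LinearIsometryEquiv.coe_mul, Function.comp, refl_apply hp, hpp, refl_apply hm1,
      inner_sub_right, inner_smul_right, hmp]
    have e : (s / 2 - 2 * 1 * (s / 2)) = - (s / 2) := by ring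
    rw [e, hm, smul_smul]
    have e2 : 2 * -(s / 2) * s⁻¹ = -1 := by field_simp
    rw [e2, mul_one, two_smul]
    simp only [neg_smul, one_smul]
    abel
  · have hmpn : ‖m - p‖ ≤ ‖p - q‖ := by
      have h1 : ‖m - p‖ ^ 2 = 2 - s := by
        rw [norm_sub_sq_real, hm1, hp, hmp]
        ring
      have h2 : ‖p - q‖ ^ 2 = 4 - s ^ 2 := by
        rw [norm_sub_sq_real, hp, hq, hss]
        ring
      have hs2 : s ≤ 2 := by
        have := norm_add_le p q
        rw [hp, hq] at this
        rw [hs]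
        linarith
      apply (pow_le_pow_iff_left₀ (norm_nonneg _) (norm_nonneg _) two_ne_zero).mp
      rw [h1, h2]
      nlinarith
    intro x
    set y : E d := refl p x with hy
    have e1 : x = refl p y := by
      rw [hy, refl, Submodule.reflection_reflection]
    have e2 : (refl m * refl p) x - (1 : Orth d) x = refl m y - refl p y := by
      rw [LinearIsometryEquiv.coe_mul, Function.comp, ← hy, ← e1]
      rfl
    have hyx : ‖y‖ = ‖x‖ := LinearIsometryEquiv.norm_map _ _
    rw [e2, refl_apply hm1, refl_apply hp]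
    have e3 : y - (2 * ⟪m, y⟫) • m - (y - (2 * ⟪p, y⟫) • p) =
        (-(2 * ⟪m - p, y⟫)) • p - (2 * ⟪m, y⟫) • (m - p) := by
      rw [inner_sub_left, smul_sub]
      module
    rw [e3]
    have h3 : |⟪m - p, y⟫| ≤ ‖m - p‖ * ‖y‖ := abs_real_inner_le_norm _ _
    have h4 : |⟪m, y⟫| ≤ ‖m‖ * ‖y‖ := abs_real_inner_le_norm _ _
    calc ‖(-(2 * ⟪m - p, y⟫)) • p - (2 * ⟪m, y⟫) • (m - p)‖
        ≤ ‖(-(2 * ⟪m - p, y⟫)) • p‖ + ‖(2 * ⟪m, y⟫) • (m - p)‖ := norm_sub_le _ _
      _ = 2 * |⟪m - p, y⟫| + 2 * |⟪m, y⟫| * ‖m - p‖ := by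
          rw [norm_smul, norm_smul, Real.norm_eq_abs, Real.norm_eq_abs, abs_neg, abs_mul, abs_mul,
            abs_two, hp, mul_one]
      _ ≤ 2 * (‖m - p‖ * ‖y‖) + 2 * (‖m‖ * ‖y‖) * ‖m - p‖ := by gcongr
      _ = 4 * ‖m - p‖ * ‖y‖ := by
          rw [hm1]
          ring
      _ ≤ 4 * ‖p - q‖ * ‖x‖ := by
          rw [hyx]
          gcongr

end near

/-! ### Words -/

section words
variable {d : ℕ} {ι : Type}

/-- The ratio of a word. -/
def rr (c : ι → ℝ) (w : List ι) : ℝ := (w.map c).prod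

/-- The orthogonal part of a word. -/
noncomputable def OO (O : ι → Orth d) (w : List ι) : Orth d := (w.map O).prod

/-- The translation part of a word. -/
noncomputable def tt (c : ι → ℝ) (O : ι → Orth d) (t : ι → E d) : List ι → E d
  | [] => 0
  | i :: w => c i • O i (tt c O t w) + t i

lemma rr_append (c : ι → ℝ) (w w' : List ι) : rr c (w ++ w') = rr c w * rr c w' := by
  simp [rr]

lemma OO_append (O : ι → Orth d) (w w' : List ι) : OO O (w ++ w') = OO O w * OO O w' := by
  simp [OO]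

lemma tt_append (c : ι → ℝ) (O : ι → Orth d) (t : ι → E d) (w w' : List ι) :
    tt c O t (w ++ w') = rr c w • OO O w (tt c O t w') + tt c O t w := by
  induction w with
  | nil => simp [tt, rr, OO]
  | cons i w ih =>
    rw [List.cons_append, tt, tt, ih, map_add, map_smul, smul_add, smul_smul]
    simp only [rr, OO, List.map_cons, List.prod_cons, LinearIsometryEquiv.coe_mul,
      Function.comp_apply]
    abel

lemma rr_pos {c : ι → ℝ} (hc : ∀ i, 0 < c i ∧ c i < 1) (w : List ι) : 0 < rr c w := by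
  induction w with
  | nil => simp [rr]
  | cons i w ih =>
    have : rr c (i :: w) = c i * rr c w := by simp [rr]
    rw [this]
    exact mul_pos (hc i).1 ih

lemma rr_le_one {c : ι → ℝ} (hc : ∀ i, 0 < c i ∧ c i < 1) (w : List ι) : rr c w ≤ 1 := by
  induction w with
  | nil => simp [rr]
  | cons i w ih =>
    have : rr c (i :: w) = c i * rr c w := by simp [rr]
    rw [this]
    nlinarith [(hc i).1, (hc i).2, rr_pos hc w]

lemma mem_of_word {c : ι → ℝ} {O : ι → Orth d} {t : ι → E d} {F : Set (E d)}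
    (hF : IsAttractor c O t F) (w : List ι) {x : E d} (hx : x ∈ F) :
    rr c w • OO O w x + tt c O t w ∈ F := by
  induction w with
  | nil => simpa [tt, rr, OO] using hx
  | cons i w ih =>
    rw [hF.2.2]
    refine mem_iUnion.mpr ⟨i, _, ih, ?_⟩
    simp only [rr, OO, tt, List.map_cons, List.prod_cons, LinearIsometryEquiv.coe_mul,
      Function.comp_apply, map_add, map_smul, smul_add, smul_smul]
    abel

/-- The translation parts are bounded. -/
lemma tt_bdd {c : ι → ℝ} (hc : ∀ i, 0 < c i ∧ c i < 1) {O : ι → Orth d} {t : ι → E d}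
    {F : Set (E d)} (hF : IsAttractor c O t F) : ∃ D : ℝ, 0 < D ∧ ∀ w, ‖tt c O t w‖ ≤ D := by
  obtain ⟨x, hx⟩ := hF.1
  obtain ⟨M, hM⟩ := hF.2.1.isBounded.exists_norm_le
  refine ⟨M + ‖x‖ + 1, by linarith [hM x hx, norm_nonneg x], fun w => ?_⟩
  have h1 := hM _ (mem_of_word hF w hx)
  have e : tt c O t w = (rr c w • OO O w x + tt c O t w) - rr c w • OO O w x := by abel
  rw [e]
  refine (norm_sub_le _ _).trans ?_
  have h2 : ‖rr c w • OO O w x‖ ≤ ‖x‖ := by
    rw [norm_smul, LinearIsometryEquiv.norm_map, Real.norm_eq_abs, abs_of_pos (rr_pos hc w)]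
    have := rr_le_one hc w
    nlinarith [norm_nonneg x]
  linarith

lemma rr_replicate (c : ι → ℝ) (i : ι) (n : ℕ) : rr c (List.replicate n i) = c i ^ n := by
  simp [rr]

lemma OO_replicate (O : ι → Orth d) (i : ι) (n : ℕ) : OO O (List.replicate n i) = O i ^ n := by
  simp [OO]

/-- The orthogonal maps that are limits of orthogonal parts of long words. -/
def Lim (c : ι → ℝ) (O : ι → Orth d) (R : Orth d) : Prop :=
  ∀ η : ℝ, 0 < η → ∃ w : List ι, rr c w ≤ η ∧ Near (OO O w) R η

lemma Lim.mul {c : ι → ℝ} (hc : ∀ i, 0 < c i ∧ c i < 1) {O : ι → Orth d} {R R' : Orth d}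
    (h : Lim c O R) (h' : Lim c O R') : Lim c O (R * R') := by
  intro η hη
  obtain ⟨w, h1, h2⟩ := h (η / 2) (by positivity)
  obtain ⟨w', h3, h4⟩ := h' (η / 2) (by positivity)
  refine ⟨w ++ w', ?_, ?_⟩
  · rw [rr_append]
    have h5 := rr_le_one hc w'
    have h6 := rr_pos hc w
    nlinarith
  · rw [OO_append]
    have := h2.mul h4
    rwa [add_halves] at this

/-- Long powers of a generator come back. -/
lemma long_power {c : ι → ℝ} (hc : ∀ i, 0 < c i ∧ c i < 1) (O : ι → Orth d) (i : ι) {η : ℝ}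
    (hη : 0 < η) : ∃ n : ℕ, 0 < n ∧ c i ^ (n - 1) ≤ η ∧ Near (O i ^ n) 1 η := by
  obtain ⟨N, hN⟩ := exists_pow_lt_of_lt_one hη (hc i).2
  obtain ⟨m, hm, hm2⟩ := recur (O i ^ (N + 1)) hη
  refine ⟨(N + 1) * m, by positivity, ?_, ?_⟩
  · refine le_trans ?_ hN.le
    apply pow_le_pow_of_le_one (hc i).1.le (hc i).2.le
    have : N + 1 ≤ (N + 1) * m := Nat.le_mul_of_pos_right _ hm
    omega
  · rw [pow_mul]
    exact hm2

lemma lim_one [Nonempty ι] {c : ι → ℝ} (hc : ∀ i, 0 < c i ∧ c i < 1) (O : ι → Orth d) :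
    Lim c O 1 := by
  intro η hη
  obtain ⟨i⟩ := ‹Nonempty ι›
  obtain ⟨n, hn, h1, h2⟩ := long_power hc O i hη
  refine ⟨List.replicate n i, ?_, ?_⟩
  · rw [rr_replicate]
    refine le_trans ?_ h1
    exact pow_le_pow_of_le_one (hc i).1.le (hc i).2.le (by omega)
  · rw [OO_replicate]
    exact h2

lemma lim_inv_gen {c : ι → ℝ} (hc : ∀ i, 0 < c i ∧ c i < 1) (O : ι → Orth d) (i : ι) :
    Lim c O (O i)⁻¹ := by
  intro η hη
  obtain ⟨n, hn, h1, h2⟩ := long_power hc O i hη
  refine ⟨List.replicate (n - 1) i, ?_, ?_⟩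
  · rw [rr_replicate]
    exact h1
  · rw [OO_replicate]
    have h3 := (near_refl (O i)⁻¹ (le_refl 0)).mul h2
    rw [mul_one, zero_add] at h3
    have e : (O i)⁻¹ * O i ^ n = O i ^ (n - 1) := by
      obtain ⟨k, rfl⟩ : ∃ k, n = k + 1 := ⟨n - 1, by omega⟩
      rw [pow_succ', inv_mul_cancel_left, Nat.add_sub_cancel]
    rwa [e] at h3

lemma lim_gen {c : ι → ℝ} (hc : ∀ i, 0 < c i ∧ c i < 1) (O : ι → Orth d) (i : ι) :
    Lim c O (O i) := by
  intro η hη
  obtain ⟨n, hn, h1, h2⟩ := long_power hc O i hη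
  refine ⟨List.replicate (n + 1) i, ?_, ?_⟩
  · rw [rr_replicate]
    refine le_trans ?_ h1
    exact pow_le_pow_of_le_one (hc i).1.le (hc i).2.le (by omega)
  · rw [OO_replicate]
    have h3 := (near_refl (O i) (le_refl 0)).mul h2
    rw [mul_one, zero_add, ← pow_succ'] at h3
    exact h3

lemma lim_word [Nonempty ι] {c : ι → ℝ} (hc : ∀ i, 0 < c i ∧ c i < 1) (O : ι → Orth d)
    (w : List ι) : Lim c O (OO O w)⁻¹ := by
  induction w with
  | nil =>
    have : (OO O ([] : List ι))⁻¹ = 1 := by simp [OO]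
    rw [this]
    exact lim_one hc O
  | cons i w ih =>
    have : (OO O (i :: w))⁻¹ = (OO O w)⁻¹ * (O i)⁻¹ := by simp [OO]
    rw [this]
    exact ih.mul hc (lim_inv_gen hc O i)

/-- With dense rotations every rotation is a limit. -/
lemma lim_of_det [Nonempty ι] {c : ι → ℝ} (hc : ∀ i, 0 < c i ∧ c i < 1) {O : ι → Orth d}
    (hO : DenseRotations O) {R : Orth d} (hR : LinearMap.det R.toLinearMap = 1) : Lim c O R := by
  have hgrp : ∀ g ∈ Subgroup.closure (Set.range O), Lim c O g := by
    intro g hg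
    induction hg using Subgroup.closure_induction'' with
    | mem x hx =>
      obtain ⟨i, rfl⟩ := hx
      exact lim_gen hc O i
    | inv_mem x hx =>
      obtain ⟨i, rfl⟩ := hx
      exact lim_inv_gen hc O i
    | one => exact lim_one hc O
    | mul x y _ _ hx hy => exact hx.mul hc hy
  intro η hη
  obtain ⟨g, hg, hgR⟩ := hO R hR (η / 2) (by positivity)
  obtain ⟨w, h1, h2⟩ := hgrp g hg (η / 2) (by positivity)
  refine ⟨w, by linarith, ?_⟩
  have := h2.trans (show Near g R (η / 2) from hgR)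
  rwa [add_halves] at this

/-! ### A pair of words -/

/-- Some generator moves the fixed point of some other generator. -/
lemma exists_moved {c : ι → ℝ} (hc : ∀ i, 0 < c i ∧ c i < 1) {O : ι → Orth d} {t : ι → E d}
    {F : Set (E d)} (hF : IsAttractor c O t F) (hF2 : F.Nontrivial) :
    ∃ (i j : ι) (p : E d), c i • O i p + t i = p ∧ c j • O j p + t j ≠ p := by
  obtain ⟨x, hx⟩ := hF.1
  have hx' := hx
  rw [hF.2.2] at hx'
  obtain ⟨i, -⟩ := mem_iUnion.mp hx'
  have hcon : ContractingWith (Real.toNNReal (c i)) (fun x => c i • O i x + t i) := by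
    constructor
    · rw [← NNReal.coe_lt_coe, Real.coe_toNNReal _ (hc i).1.le]
      exact (hc i).2
    · refine LipschitzWith.of_dist_le_mul fun x y => ?_
      rw [Real.coe_toNNReal _ (hc i).1.le, dist_add_right, dist_smul₀, Real.norm_eq_abs,
        abs_of_pos (hc i).1, LinearIsometryEquiv.dist_map]
  set p := ContractingWith.fixedPoint _ hcon with hp
  have hpf : c i • O i p + t i = p := hcon.fixedPoint_isFixedPt
  by_contra hcont
  push Not at hcont
  have hall : ∀ j, c j • O j p + t j = p := fun j => hcont i j p hpf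
  -- then `F = {p}`
  have hcd : Continuous fun x : E d => dist x p := continuous_id.dist continuous_const
  obtain ⟨x0, hx0, hmax⟩ := hF.2.1.exists_isMaxOn hF.1 hcd.continuousOn
  have hx0' := hx0
  rw [hF.2.2] at hx0'
  obtain ⟨j, z, hz, hzx⟩ := mem_iUnion.mp hx0'
  have h1 : dist x0 p = c j * dist z p := by
    have e : dist x0 p = dist (c j • O j z + t j) (c j • O j p + t j) := by
      rw [hall j]
      simp only at hzx
      rw [hzx]
    rw [e, dist_add_right, dist_smul₀, Real.norm_eq_abs, abs_of_pos (hc j).1,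
      LinearIsometryEquiv.dist_map]
  have h2 : dist z p ≤ dist x0 p := hmax hz
  have h3 : dist x0 p = 0 := by
    have h4 : 0 ≤ dist z p := dist_nonneg
    nlinarith [(hc j).1, (hc j).2]
  have h5 : ∀ y ∈ F, y = p := by
    intro y hy
    have h6 : dist y p ≤ dist x0 p := hmax hy
    rw [h3] at h6
    exact dist_le_zero.mp h6
  obtain ⟨y, hy, z', hz', hne⟩ := hF2
  exact hne ((h5 y hy).trans (h5 z' hz').symm)

/-- Two words with equal ratios, nearly equal orthogonal parts and far translations. -/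
lemma exists_pair {c : ι → ℝ} (hc : ∀ i, 0 < c i ∧ c i < 1) {O : ι → Orth d} {t : ι → E d}
    {F : Set (E d)} (hF : IsAttractor c O t F) (hF2 : F.Nontrivial) :
    ∃ κ : ℝ, 0 < κ ∧ ∀ η : ℝ, 0 < η → ∃ a b : List ι, rr c a = rr c b ∧
      Near (OO O a) (OO O b) η ∧ κ ≤ ‖tt c O t a - tt c O t b‖ := by
  obtain ⟨i, j, p, hi, hj⟩ := exists_moved hc hF hF2
  set q : E d := c j • O j p + t j with hq
  have hpq : 0 < ‖p - q‖ := norm_pos_iff.mpr (sub_ne_zero.mpr (Ne.symm hj))
  refine ⟨‖p - q‖ / 2, by positivity, fun η hη => ?_⟩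
  set K : ℝ := ‖t j - p‖ + ‖p‖ + 1 with hK
  have hK0 : 0 < K := by positivity
  obtain ⟨n, hn, h1, h2⟩ := long_power hc O i (η := min (η / 2) (‖p - q‖ / (2 * K)))
    (lt_min (by positivity) (by positivity))
  have h1' : c i ^ n ≤ ‖p - q‖ / (2 * K) := by
    refine le_trans ?_ (h1.trans (min_le_right _ _))
    exact pow_le_pow_of_le_one (hc i).1.le (hc i).2.le (by omega)
  have h2' : Near (O i ^ n) 1 (η / 2) := h2.mono (min_le_left _ _)
  set u := List.replicate n i with hu
  have hfix : ∀ n : ℕ, rr c (List.replicate n i) • OO O (List.replicate n i) p +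
      tt c O t (List.replicate n i) = p := by
    intro n
    induction n with
    | zero => simp [rr, OO, tt]
    | succ n ih =>
      rw [List.replicate_succ]
      simp only [rr, OO, tt, List.map_cons, List.prod_cons, LinearIsometryEquiv.coe_mul,
        Function.comp_apply] at ih ⊢
      conv_rhs => rw [← hi]
      conv_rhs => rw [← ih]
      rw [map_add, map_smul, smul_add, smul_smul]
      abel
  have htu : tt c O t u = p - c i ^ n • (O i ^ n) p := by
    have := hfix n
    rw [← hu, ← rr_replicate c i n, ← hu, ← OO_replicate O i n, ← hu] at *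
    rw [eq_sub_iff_add_eq, add_comm]
    exact this
  refine ⟨u ++ [j], [j] ++ u, ?_, ?_, ?_⟩
  · rw [rr_append, rr_append, mul_comm]
  · rw [OO_append, OO_append, OO_replicate]
    have h3 := h2'.mul (near_refl (OO O [j]) (le_refl 0))
    have h4 := (near_refl (OO O [j]) (le_refl 0)).mul h2'
    rw [one_mul, add_zero] at h3
    rw [mul_one, zero_add] at h4
    have h5 := h3.trans h4.symm
    rwa [add_halves] at h5
  · have e1 : tt c O t (u ++ [j]) = p + c i ^ n • (O i ^ n) (t j - p) := by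
      rw [tt_append, rr_replicate, OO_replicate, htu, map_sub, smul_sub]
      simp only [tt, map_zero, smul_zero, zero_add]
      abel
    have e2 : tt c O t ([j] ++ u) = q - c i ^ n • c j • O j ((O i ^ n) p) := by
      rw [tt_append, htu]
      simp only [rr, OO, tt, List.map_cons, List.map_nil, List.prod_cons, List.prod_nil, mul_one,
        map_zero, smul_zero, zero_add, map_sub, smul_sub, map_smul]
      rw [hq, smul_comm (c j)]
      abel
    have e3 : tt c O t (u ++ [j]) - tt c O t ([j] ++ u) = (p - q) +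
        c i ^ n • ((O i ^ n) (t j - p) + c j • O j ((O i ^ n) p)) := by
      rw [e1, e2, smul_add]
      abel
    have h3 : ‖c i ^ n • ((O i ^ n) (t j - p) + c j • O j ((O i ^ n) p))‖ ≤ ‖p - q‖ / 2 := by
      rw [norm_smul, Real.norm_eq_abs, abs_of_pos (pow_pos (hc i).1 n)]
      have h4 : ‖(O i ^ n) (t j - p) + c j • O j ((O i ^ n) p)‖ ≤ K := by
        refine (norm_add_le _ _).trans ?_
        rw [norm_smul, LinearIsometryEquiv.norm_map, LinearIsometryEquiv.norm_map,
          LinearIsometryEquiv.norm_map, Real.norm_eq_abs, abs_of_pos (hc j).1, hK]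
        nlinarith [(hc j).2, norm_nonneg p, (hc j).1]
      calc c i ^ n * ‖(O i ^ n) (t j - p) + c j • O j ((O i ^ n) p)‖
          ≤ ‖p - q‖ / (2 * K) * K := by
            gcongr
        _ = ‖p - q‖ / 2 := by field_simp
    rw [e3]
    have h4 := norm_sub_norm_le (p - q)
      (-(c i ^ n • ((O i ^ n) (t j - p) + c j • O j ((O i ^ n) p))))
    rw [sub_neg_eq_add, norm_neg] at h4
    linarith

end words

/-! ### Approximate displacements of the projection -/

section good
variable {d : ℕ} {ι : Type}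

lemma exists_unit_orth {V : Submodule ℝ (E d)} (hV : Module.finrank ℝ V < d) :
    ∃ z ∈ Vᗮ, ‖z‖ = 1 := by
  have h1 : Vᗮ ≠ ⊥ := by
    intro h
    have h2 := V.finrank_add_finrank_orthogonal
    rw [h, finrank_bot, add_zero, finrank_euclideanSpace_fin] at h2
    omega
  obtain ⟨z, hz, hz0⟩ := Submodule.exists_mem_ne_zero_of_ne_bot h1
  have hz1 : ‖z‖ ≠ 0 := norm_ne_zero_iff.mpr hz0
  refine ⟨‖z‖⁻¹ • z, Submodule.smul_mem _ _ hz, ?_⟩
  rw [norm_smul, norm_inv, norm_norm]
  exact inv_mul_cancel₀ hz1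

/-- The key step: normalized displacements of pairs of cylinders whose projections approximate
a given vector, with orthogonal parts close to the identity. -/
lemma good_pair {c : ι → ℝ} (hc : ∀ i, 0 < c i ∧ c i < 1) {O : ι → Orth d} {t : ι → E d}
    (hO : DenseRotations O) {F : Set (E d)} (hF : IsAttractor c O t F) (hF2 : F.Nontrivial)
    {V : Submodule ℝ (E d)} (hV : Module.finrank ℝ V < d) {v : E d} (hv : v ∈ V)
    (hv1 : ‖v‖ ≤ 1) {ε : ℝ} (hε : 0 < ε) :
    ∃ A B : List ι, rr c A = rr c B ∧ Near (OO O A) (OO O B) ε ∧ Near (OO O B) 1 ε ∧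
      ‖V.starProjection ((rr c A)⁻¹ • (tt c O t A - tt c O t B)) - v‖ ≤ ε := by
  have hι : Nonempty ι := by
    obtain ⟨i, -⟩ := exists_moved hc hF hF2
    exact ⟨i⟩
  obtain ⟨D, hD, htt⟩ := tt_bdd hc hF
  obtain ⟨κ, hκ, hpair⟩ := exists_pair hc hF hF2
  obtain ⟨z0, hz0, hz01⟩ := exists_unit_orth hV
  -- small parameters
  set s : ℝ := min (ε / 64) (1 / 64) with hs
  have hs0 : 0 < s := lt_min (by positivity) (by norm_num)
  have hsε : s ≤ ε / 64 := min_le_left _ _
  have hs1 : s ≤ 1 / 64 := min_le_right _ _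
  set η : ℝ := min s (κ * s) with hη
  have hη0 : 0 < η := lt_min hs0 (by positivity)
  have hηs : η ≤ s := min_le_left _ _
  have hηκ : η ≤ κ * s := min_le_right _ _
  set ε1 : ℝ := min ε (κ * s / D) with hε1
  have hε10 : 0 < ε1 := lt_min hε (by positivity)
  have hε1D : ε1 * D ≤ κ * s := by
    calc ε1 * D ≤ κ * s / D * D := by gcongr; exact min_le_right _ _
      _ = κ * s := by field_simp
  obtain ⟨a, b, hab, hnear, hκab⟩ := hpair ε1 hε10
  have hra := rr_pos hc a
  have hra1 := rr_le_one hc a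
  set u' : E d := (rr c a)⁻¹ • (tt c O t a - tt c O t b) with hu'
  have hu'κ : κ ≤ ‖u'‖ := by
    rw [hu', norm_smul, norm_inv, Real.norm_eq_abs, abs_of_pos hra]
    refine hκab.trans ?_
    rw [inv_mul_eq_div, le_div_iff₀ hra]
    nlinarith [norm_nonneg (tt c O t a - tt c O t b)]
  have hu'0 : 0 < ‖u'‖ := lt_of_lt_of_le hκ hu'κ
  set p : E d := ‖u'‖⁻¹ • u' with hp
  have hp1 : ‖p‖ = 1 := by
    rw [hp, norm_smul, norm_inv, norm_norm]
    exact inv_mul_cancel₀ hu'0.ne'
  -- the direction in the kernel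
  obtain ⟨z, hz, hz1, hpz⟩ : ∃ z ∈ Vᗮ, ‖z‖ = 1 ∧ p + z ≠ 0 := by
    by_cases h : p + z0 = 0
    · refine ⟨-z0, Submodule.neg_mem _ hz0, by rw [norm_neg, hz01], ?_⟩
      intro h2
      have h3 : p = 0 := by
        have h4 : (2 : ℝ) • p = 0 := by
          have : (2 : ℝ) • p = (p + z0) + (p + -z0) := by
            rw [two_smul]
            abel
          rw [this, h, h2, add_zero]
        exact (smul_eq_zero.mp h4).resolve_left two_ne_zero
      rw [h3, norm_zero] at hp1
      exact zero_ne_one hp1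
    · exact ⟨z0, hz0, hz01, h⟩
  obtain ⟨T, hTdet, hTp, -⟩ := exists_rot hp1 hz1 hpz
  have hTu' : T u' = ‖u'‖ • z := by
    have e : u' = ‖u'‖ • p := by
      rw [hp, smul_inv_smul₀ hu'0.ne']
    conv_lhs => rw [e]
    rw [map_smul, hTp]
  -- the right factor
  have hlim1 : Lim c O (T * OO O b)⁻¹ := by
    rw [mul_inv_rev]
    refine (lim_word hc O b).mul hc (lim_of_det hc hO ?_)
    have h1 : T * T⁻¹ = 1 := mul_inv_cancel T
    have h2 := det_mul' T T⁻¹
    rw [h1, hTdet, one_mul] at h2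
    rw [← h2]
    exact LinearMap.det_id
  obtain ⟨w', hw'1, hw'2⟩ := hlim1 η hη0
  set cw : ℝ := rr c w' with hcw
  have hcw0 : 0 < cw := rr_pos hc w'
  set u'' : E d := u' + (OO O a (tt c O t w') - OO O b (tt c O t w')) with hu''
  have hu''d : ‖u'' - u'‖ ≤ κ * s := by
    rw [hu'', add_sub_cancel_left]
    refine (hnear _).trans (le_trans ?_ hε1D)
    have := htt w'
    gcongr
  have hκs : κ * s ≤ κ / 64 := by
    calc κ * s ≤ κ * (1 / 64) := by gcongr
      _ = κ / 64 := by ring
  have hu''κ : κ / 2 ≤ ‖u''‖ := by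
    have h1 := norm_sub_norm_le u' u''
    rw [norm_sub_rev] at h1
    linarith
  have hu''0 : 0 < ‖u''‖ := by linarith
  set p'' : E d := ‖u''‖⁻¹ • T u'' with hp''
  have hp''1 : ‖p''‖ = 1 := by
    rw [hp'', norm_smul, norm_inv, norm_norm, LinearIsometryEquiv.norm_map]
    exact inv_mul_cancel₀ hu''0.ne'
  have hp''z : ‖p'' - z‖ ≤ 4 * s := by
    have e : p'' - z = ‖u''‖⁻¹ • (T (u'' - u') + (‖u'‖ - ‖u''‖) • z) := by
      rw [map_sub, hTu', sub_smul]
      have e2 : T u'' - ‖u'‖ • z + (‖u'‖ • z - ‖u''‖ • z) = T u'' - ‖u''‖ • z := by abel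
      rw [e2, smul_sub, inv_smul_smul₀ hu''0.ne']
    rw [e, norm_smul, norm_inv, norm_norm, inv_mul_le_iff₀ hu''0]
    refine (norm_add_le _ _).trans ?_
    rw [LinearIsometryEquiv.norm_map, norm_smul, hz1, mul_one, Real.norm_eq_abs]
    have h1 : |‖u'‖ - ‖u''‖| ≤ ‖u'' - u'‖ := by
      rw [norm_sub_rev]
      exact abs_norm_sub_norm_le _ _
    nlinarith
  -- the target vector
  have hcwκ : cw ≤ κ * s := hw'1.trans hηκ
  have hcv : cw * ‖v‖ ≤ cw := by nlinarith [norm_nonneg v]
  have hcvu : cw * ‖v‖ ≤ ‖u''‖ := by linarith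
  set h : ℝ := Real.sqrt (‖u''‖ ^ 2 - (cw * ‖v‖) ^ 2) with hh
  have hhsq : h ^ 2 = ‖u''‖ ^ 2 - (cw * ‖v‖) ^ 2 := by
    rw [hh, Real.sq_sqrt]
    have : (cw * ‖v‖) ^ 2 ≤ ‖u''‖ ^ 2 := by
      have : 0 ≤ cw * ‖v‖ := by positivity
      gcongr
    linarith
  have hh0 : 0 ≤ h := Real.sqrt_nonneg _
  have hhu : h ≤ ‖u''‖ := by
    apply Real.sqrt_le_iff.mpr
    constructor
    · exact norm_nonneg _
    · have : 0 ≤ (cw * ‖v‖) ^ 2 := by positivity
      linarith
  have hhu2 : ‖u''‖ - h ≤ cw * ‖v‖ := by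
    have h1 : 0 ≤ cw * ‖v‖ := by positivity
    have h2 : (‖u''‖ - cw * ‖v‖) ≤ h := by
      apply Real.le_sqrt_of_sq_le
      nlinarith
    linarith
  set g : E d := cw • v + h • z with hg
  have hgn : ‖g‖ = ‖u''‖ := by
    have h1 : ‖g‖ ^ 2 = ‖u''‖ ^ 2 := by
      rw [hg, norm_add_sq_real, inner_smul_left, inner_smul_right,
        Submodule.inner_right_of_mem_orthogonal hv hz, norm_smul, norm_smul, hz1, mul_one,
        Real.norm_eq_abs, Real.norm_eq_abs, abs_of_pos hcw0, sq_abs, hhsq]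
      ring
    exact (pow_left_inj₀ (norm_nonneg _) (norm_nonneg _) two_ne_zero).mp h1
  set q'' : E d := ‖u''‖⁻¹ • g with hq''
  have hq''1 : ‖q''‖ = 1 := by
    rw [hq'', norm_smul, norm_inv, norm_norm, hgn]
    exact inv_mul_cancel₀ hu''0.ne'
  have hq''z : ‖q'' - z‖ ≤ 4 * s := by
    have e : q'' - z = ‖u''‖⁻¹ • (cw • v + (h - ‖u''‖) • z) := by
      rw [hq'', hg, sub_smul]
      have e2 : cw • v + (h • z - ‖u''‖ • z) = (cw • v + h • z) - ‖u''‖ • z := by abel
      rw [e2, smul_sub, inv_smul_smul₀ hu''0.ne']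
    rw [e, norm_smul, norm_inv, norm_norm, inv_mul_le_iff₀ hu''0]
    refine (norm_add_le _ _).trans ?_
    rw [norm_smul, norm_smul, hz1, mul_one, Real.norm_eq_abs, Real.norm_eq_abs, abs_of_pos hcw0,
      abs_sub_comm, abs_of_nonneg (by linarith)]
    nlinarith
  have hpq : ‖p'' - q''‖ ≤ 8 * s := by
    have e : p'' - q'' = (p'' - z) - (q'' - z) := by abel
    rw [e]
    refine (norm_sub_le _ _).trans ?_
    linarith
  have hpq0 : p'' + q'' ≠ 0 := by
    intro h1
    have h2 : p'' - q'' = (2 : ℝ) • p'' := by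
      have : q'' = -p'' := by
        rw [add_comm] at h1
        exact eq_neg_of_add_eq_zero_left h1
      rw [this, two_smul]
      abel
    rw [h2, norm_smul, hp''1] at hpq
    norm_num at hpq
    linarith
  obtain ⟨ρ, hρdet, hρp, hρn⟩ := exists_rot hp''1 hq''1 hpq0
  set R : Orth d := ρ * T with hR
  have hRu : R u'' = g := by
    have e : T u'' = ‖u''‖ • p'' := by
      rw [hp'', smul_inv_smul₀ hu''0.ne']
    rw [hR, LinearIsometryEquiv.coe_mul, Function.comp_apply, e, map_smul, hρp, hq'',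
      smul_inv_smul₀ hu''0.ne']
  have hRdet : LinearMap.det R.toLinearMap = 1 := by
    rw [hR, det_mul', hρdet, hTdet, mul_one]
  obtain ⟨w, -, hw⟩ := lim_of_det hc hO hRdet (min s (ε * cw / ‖u''‖))
    (lt_min hs0 (by positivity))
  have hw1 : Near (OO O w) R s := hw.mono (min_le_left _ _)
  have hw2 : Near (OO O w) R (ε * cw / ‖u''‖) := hw.mono (min_le_right _ _)
  have hrw := rr_pos hc w
  refine ⟨w ++ (a ++ w'), w ++ (b ++ w'), ?_, ?_, ?_, ?_⟩
  · rw [rr_append, rr_append, rr_append, rr_append, hab]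
  · rw [OO_append, OO_append, OO_append, OO_append]
    have h1 := (near_refl (OO O w) (le_refl 0)).mul
      (hnear.mul (near_refl (OO O w') (le_refl 0)))
    rw [zero_add, add_zero] at h1
    exact h1.mono (min_le_left _ _)
  · rw [OO_append, OO_append, ← mul_assoc]
    have h1 : Near (OO O w) T (s + 4 * (8 * s)) := by
      have h2 := hρn.mul (near_refl T (le_refl 0))
      rw [one_mul, add_zero] at h2
      exact (hw1.trans h2).mono (by linarith)
    have h3 := (h1.mul (near_refl (OO O b) (le_refl 0))).mul hw'2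
    rw [mul_inv_cancel] at h3
    exact h3.mono (by linarith)
  · have e1 : tt c O t (w ++ (a ++ w')) - tt c O t (w ++ (b ++ w')) =
        (rr c w * rr c a) • OO O w u'' := by
      have e0 : rr c a • OO O a (tt c O t w') + tt c O t a -
          (rr c b • OO O b (tt c O t w') + tt c O t b) = rr c a • u'' := by
        rw [hu'', smul_add, hu', smul_inv_smul₀ hra.ne', ← hab, smul_sub]
        abel
      rw [tt_append c O t w, tt_append c O t w, add_sub_add_right_eq_sub, ← smul_sub,
        ← map_sub, tt_append, tt_append, e0, map_smul, mul_smul]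
    have e2 : (rr c (w ++ (a ++ w')))⁻¹ • (tt c O t (w ++ (a ++ w')) - tt c O t (w ++ (b ++ w')))
        = cw⁻¹ • OO O w u'' := by
      rw [e1, rr_append, rr_append, smul_smul]
      congr 1
      rw [← hcw]
      field_simp
    have e3 : V.starProjection (cw⁻¹ • R u'') = v := by
      rw [hRu, hg, map_smul, map_add, map_smul, map_smul,
        Submodule.starProjection_eq_self_iff.mpr hv,
        (Submodule.starProjection_apply_eq_zero_iff V).mpr hz, smul_zero, add_zero,
        inv_smul_smul₀ hcw0.ne']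
    rw [e2]
    conv_lhs => rw [← e3]
    rw [← map_sub, ← smul_sub]
    refine (Submodule.norm_starProjection_apply_le _ _).trans ?_
    rw [norm_smul, norm_inv, Real.norm_eq_abs, abs_of_pos hcw0, inv_mul_le_iff₀ hcw0]
    refine (hw2 u'').trans ?_
    rw [div_mul_cancel₀ _ hu''0.ne', mul_comm]

/-- Finite sets of small vectors are approximated simultaneously. -/
lemma reach {c : ι → ℝ} (hc : ∀ i, 0 < c i ∧ c i < 1) {O : ι → Orth d} {t : ι → E d}
    (hO : DenseRotations O) {F : Set (E d)} (hF : IsAttractor c O t F) (hF2 : F.Nontrivial)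
    {V : Submodule ℝ (E d)} (hV : Module.finrank ℝ V < d) (Q : Finset (E d))
    (hQ : ∀ v ∈ Q, v ∈ V ∧ ‖v‖ ≤ 1) : ∀ ε : ℝ, 0 < ε →
    ∃ W0 : List ι, ∀ v ∈ Q, ∃ W : List ι, rr c W = rr c W0 ∧ Near (OO O W) (OO O W0) ε ∧
      ‖V.starProjection ((rr c W0)⁻¹ • (tt c O t W - tt c O t W0)) - v‖ ≤ ε := by
  classical
  obtain ⟨D, hD, htt⟩ := tt_bdd hc hF
  induction Q using Finset.induction_on with
  | empty => exact fun ε _ => ⟨[], fun v hv => absurd hv (Finset.notMem_empty v)⟩
  | insert v Q hv ih =>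
    intro ε hε
    obtain ⟨W0, hW⟩ := ih (fun u hu => hQ u (Finset.mem_insert_of_mem hu)) (ε / 2) (by positivity)
    obtain ⟨hvV, hv1⟩ := hQ v (Finset.mem_insert_self v Q)
    set cN := rr c W0 with hcN
    have hcN0 : 0 < cN := rr_pos hc W0
    have hcN1 : cN ≤ 1 := rr_le_one hc W0
    set ε' : ℝ := cN * ε / (4 * (D + 1)) with hε'
    have hε'0 : 0 < ε' := by positivity
    obtain ⟨A, B, hAB, hnear, hnear1, hd⟩ := good_pair hc hO hF hF2 hV (v := cN • v)
      (V.smul_mem _ hvV) (by
        rw [norm_smul, Real.norm_eq_abs, abs_of_pos hcN0]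
        nlinarith [norm_nonneg v]) hε'0
    have hrA := rr_pos hc A
    have hrB := rr_pos hc B
    have hε'D : ε' * (D + 1) = cN * ε / 4 := by
      rw [hε']
      field_simp
    have hε'ε : ε' ≤ ε := by
      have h1 : ε' ≤ ε' * (D + 1) := by nlinarith
      have h2 : cN * ε ≤ 1 * ε := by gcongr
      linarith
    refine ⟨B ++ W0, ?_⟩
    intro u hu
    rcases Finset.mem_insert.mp hu with rfl | hu
    · refine ⟨A ++ W0, by rw [rr_append, rr_append, hAB], by
        rw [OO_append, OO_append]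
        have h1 := hnear.mul (near_refl (OO O W0) (le_refl 0))
        rw [add_zero] at h1
        exact h1.mono hε'ε, ?_⟩
      have e : (rr c (B ++ W0))⁻¹ • (tt c O t (A ++ W0) - tt c O t (B ++ W0)) =
          cN⁻¹ • ((rr c A)⁻¹ • (tt c O t A - tt c O t B) +
            (OO O A (tt c O t W0) - OO O B (tt c O t W0))) := by
        rw [tt_append, tt_append, rr_append, ← hcN, hAB]
        have e2 : rr c B • OO O A (tt c O t W0) + tt c O t A -
            (rr c B • OO O B (tt c O t W0) + tt c O t B) =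
            rr c B • ((rr c B)⁻¹ • (tt c O t A - tt c O t B) +
            (OO O A (tt c O t W0) - OO O B (tt c O t W0))) := by
          rw [smul_add, smul_inv_smul₀ hrB.ne', smul_sub]
          abel
        rw [e2, smul_smul]
        congr 1
        field_simp
      have e3 : u = cN⁻¹ • cN • u := by rw [inv_smul_smul₀ hcN0.ne']
      rw [e]
      conv_lhs => rw [e3]
      rw [map_smul, ← smul_sub, norm_smul, norm_inv, Real.norm_eq_abs, abs_of_pos hcN0,
        inv_mul_le_iff₀ hcN0, map_add]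
      have e4 : V.starProjection ((rr c A)⁻¹ • (tt c O t A - tt c O t B)) +
          V.starProjection (OO O A (tt c O t W0) - OO O B (tt c O t W0)) - cN • u =
          (V.starProjection ((rr c A)⁻¹ • (tt c O t A - tt c O t B)) - cN • u) +
          V.starProjection (OO O A (tt c O t W0) - OO O B (tt c O t W0)) := by abel
      rw [e4]
      refine (norm_add_le _ _).trans ?_
      have h1 := Submodule.norm_starProjection_apply_le V
        (OO O A (tt c O t W0) - OO O B (tt c O t W0))
      have h2 := hnear (tt c O t W0)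
      have h3 : ε' * ‖tt c O t W0‖ ≤ ε' * D := by
        have := htt W0
        gcongr
      have h4 : 0 < cN * ε := by positivity
      nlinarith
    · obtain ⟨W, hW1, hWn, hW2⟩ := hW u hu
      refine ⟨B ++ W, by rw [rr_append, rr_append, hW1], by
        rw [OO_append, OO_append]
        have h1 := (near_refl (OO O B) (le_refl 0)).mul hWn
        rw [zero_add] at h1
        exact h1.mono (by linarith), ?_⟩
      set x : E d := tt c O t W - tt c O t W0 with hx
      have e : (rr c (B ++ W0))⁻¹ • (tt c O t (B ++ W) - tt c O t (B ++ W0)) =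
          cN⁻¹ • x + cN⁻¹ • (OO O B x - x) := by
        rw [tt_append, tt_append, rr_append, ← hcN, add_sub_add_right_eq_sub, ← smul_sub,
          ← map_sub, ← hx, smul_smul, ← smul_add, add_sub_cancel]
        congr 1
        field_simp
      have e2 : V.starProjection (cN⁻¹ • x + cN⁻¹ • (OO O B x - x)) - u =
          (V.starProjection (cN⁻¹ • x) - u) + V.starProjection (cN⁻¹ • (OO O B x - x)) := by
        rw [map_add]
        abel
      rw [e, e2]
      refine (norm_add_le _ _).trans ?_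
      have h1 : ‖V.starProjection (cN⁻¹ • (OO O B x - x))‖ ≤ ε / 2 := by
        refine (Submodule.norm_starProjection_apply_le _ _).trans ?_
        rw [norm_smul, norm_inv, Real.norm_eq_abs, abs_of_pos hcN0, inv_mul_le_iff₀ hcN0]
        have h2 : ‖OO O B x - x‖ ≤ ε' * ‖x‖ := hnear1 x
        have h3 : ‖x‖ ≤ 2 * (D + 1) := by
          rw [hx]
          refine (norm_sub_le _ _).trans ?_
          linarith [htt W, htt W0]
        have h4 : ε' * ‖x‖ ≤ ε' * (2 * (D + 1)) := by gcongr
        linarith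
      linarith

end good

/-! ### Covering numbers -/

section cover
variable {X : Type*} [PseudoMetricSpace X]

lemma coverNum_le_of_finset {ι : Type*} {δ : ℝ} {F : Set X} (s : Finset ι) (U : ι → Set X)
    (h1 : F ⊆ ⋃ i ∈ s, U i) (h2 : ∀ i ∈ s, IsOpen (U i) ∧ ∀ x ∈ U i, ∀ y ∈ U i, dist x y ≤ δ) :
    coverNum δ F ≤ s.card := by
  apply Nat.sInf_le
  refine ⟨fun j => U (s.equivFin.symm j), ?_, fun j => h2 _ (s.equivFin.symm j).2⟩
  intro x hx
  obtain ⟨i, hi, hxi⟩ := mem_iUnion₂.mp (h1 hx)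
  refine mem_iUnion.mpr ⟨s.equivFin ⟨i, hi⟩, ?_⟩
  simpa using hxi

lemma exists_cover {δ : ℝ} {F : Set X}
    (h : ∃ k : ℕ, ∃ U : Fin k → Set X, F ⊆ ⋃ i, U i ∧
      ∀ i, IsOpen (U i) ∧ ∀ x ∈ U i, ∀ y ∈ U i, dist x y ≤ δ) :
    ∃ U : Fin (coverNum δ F) → Set X, F ⊆ ⋃ i, U i ∧
      ∀ i, IsOpen (U i) ∧ ∀ x ∈ U i, ∀ y ∈ U i, dist x y ≤ δ :=
  Nat.sInf_mem (s := {k : ℕ | ∃ U : Fin k → Set X, F ⊆ ⋃ i, U i ∧
    ∀ i, IsOpen (U i) ∧ ∀ x ∈ U i, ∀ y ∈ U i, dist x y ≤ δ}) h

lemma exists_finite_cover [ProperSpace X] {δ : ℝ} (hδ : 0 < δ) {F : Set X}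
    (hE : Bornology.IsBounded F) :
    ∃ k : ℕ, ∃ U : Fin k → Set X, F ⊆ ⋃ i, U i ∧
      ∀ i, IsOpen (U i) ∧ ∀ x ∈ U i, ∀ y ∈ U i, dist x y ≤ δ := by
  obtain ⟨t, -, htf, hcov⟩ := hE.isCompact_closure.finite_cover_balls (e := δ / 2) (by linarith)
  set s := htf.toFinset with hs
  refine ⟨s.card, fun j => Metric.ball ((s.equivFin.symm j : s) : X) (δ / 2), ?_, ?_⟩
  · intro x hx
    obtain ⟨y, hy, hxy⟩ := mem_iUnion₂.mp (hcov (subset_closure hx))
    have hy' : y ∈ s := by rw [hs, Set.Finite.mem_toFinset]; exact hy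
    refine mem_iUnion.mpr ⟨s.equivFin ⟨y, hy'⟩, ?_⟩
    simpa using hxy
  · intro j
    refine ⟨Metric.isOpen_ball, ?_⟩
    intro x hx y hy
    rw [Metric.mem_ball] at hx hy
    have := dist_triangle_right x y ((s.equivFin.symm j : s) : X)
    linarith

/-- Separated points give a lower bound. -/
lemma card_le_coverNum [ProperSpace X] {ι : Type*} [Fintype ι] {δ : ℝ} (hδ : 0 < δ) {F : Set X}
    (hE : Bornology.IsBounded F) (p : ι → X) (hp : ∀ i, p i ∈ F)
    (hsep : ∀ i j, i ≠ j → δ < dist (p i) (p j)) : Fintype.card ι ≤ coverNum δ F := by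
  classical
  obtain ⟨U, hU1, hU2⟩ := exists_cover (exists_finite_cover hδ hE)
  choose g hg using fun i => mem_iUnion.mp (hU1 (hp i))
  have hinj : Function.Injective g := by
    intro i j hij
    by_contra hne
    have h1 := hsep i j hne
    have h2 := (hU2 (g i)).2 _ (hg i) (p j) (by rw [hij]; exact hg j)
    linarith
  have := Fintype.card_le_of_injective g hinj
  simpa using this

end cover

section grid
variable {k : ℕ}

/-- A grid of `M^k` vectors of norm at most `1`. -/
noncomputable def gridPt (k M : ℕ) (q : Fin k → Fin M) : E k :=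
  WithLp.toLp 2 fun j => 1 / (k * M) * ((q j : ℕ) : ℝ)

lemma abs_coord_sub_le (x y : E k) (i : Fin k) : |x i - y i| ≤ dist x y := by
  have h := PiLp.norm_apply_le (x - y) i
  rw [dist_eq_norm]
  simpa using h

lemma norm_le_sum (x : E k) : ‖x‖ ≤ ∑ i, |x i| := by
  rw [EuclideanSpace.norm_eq]
  apply Real.sqrt_le_iff.mpr
  constructor
  · exact Finset.sum_nonneg fun i _ => abs_nonneg _
  · have : ∑ i, ‖x i‖ ^ 2 ≤ (∑ i, ‖x i‖) ^ 2 :=
      Finset.sum_sq_le_sq_sum_of_nonneg (fun i _ => norm_nonneg _)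
    simpa using this

lemma gridPt_norm (hk : 0 < k) {M : ℕ} (hM : 0 < M) (q : Fin k → Fin M) :
    ‖gridPt k M q‖ ≤ 1 := by
  have hk0 : (0 : ℝ) < k := by exact_mod_cast hk
  have hM0 : (0 : ℝ) < M := by exact_mod_cast hM
  refine (norm_le_sum _).trans ?_
  calc ∑ i, |gridPt k M q i| ≤ ∑ _i : Fin k, 1 / (k : ℝ) := by
        apply Finset.sum_le_sum
        intro i _
        change |1 / (k * M) * ((q i : ℕ) : ℝ)| ≤ 1 / (k : ℝ)
        rw [abs_of_nonneg (by positivity)]
        have h1 : ((q i : ℕ) : ℝ) ≤ M := by exact_mod_cast (q i).2.le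
        calc 1 / (k * M) * ((q i : ℕ) : ℝ) ≤ 1 / (k * M) * M := by gcongr
          _ = 1 / (k : ℝ) := by field_simp
    _ = 1 := by
        rw [Finset.sum_const, Finset.card_univ, Fintype.card_fin, nsmul_eq_mul]
        field_simp

lemma gridPt_sep {M : ℕ} {q q' : Fin k → Fin M} (h : q ≠ q') :
    1 / (k * M : ℝ) ≤ dist (gridPt k M q) (gridPt k M q') := by
  obtain ⟨j, hj⟩ := Function.ne_iff.mp h
  refine le_trans ?_ (abs_coord_sub_le _ _ j)
  change 1 / (k * M : ℝ) ≤ |1 / (k * M) * ((q j : ℕ) : ℝ) - 1 / (k * M) * ((q' j : ℕ) : ℝ)|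
  rw [← mul_sub, abs_mul, abs_of_nonneg (by positivity : 0 ≤ 1 / (k * M : ℝ))]
  have h1 : (1 : ℝ) ≤ |((q j : ℕ) : ℝ) - ((q' j : ℕ) : ℝ)| := by
    have h2 : ((q j : ℕ) : ℤ) - ((q' j : ℕ) : ℤ) ≠ 0 := by
      intro h3
      apply hj
      apply Fin.ext
      omega
    have h3 := Int.one_le_abs h2
    exact_mod_cast h3
  calc 1 / (k * M : ℝ) = 1 / (k * M) * 1 := (mul_one _).symm
    _ ≤ _ := by gcongr

end grid

/-! ### The two bounds -/

section bounds
variable {d k : ℕ} {ι : Type}

/-- The lower bound. -/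
lemma dimA_ge (hk : 0 < k) (hkd : k < d) {c : ι → ℝ} (hc : ∀ i, 0 < c i ∧ c i < 1)
    {O : ι → Orth d} {t : ι → E d} (hO : DenseRotations O) {F : Set (E d)}
    (hF : IsAttractor c O t F) (hF2 : F.Nontrivial) {V : Submodule ℝ (E d)}
    (hV : Module.finrank ℝ V = k) : (k : ℝ≥0∞) ≤ dimA (V.starProjection '' F) := by
  classical
  obtain ⟨x0, hx0⟩ := hF.1
  have hk0 : (0 : ℝ) < k := by exact_mod_cast hk
  set P : E d →L[ℝ] E d := V.starProjection with hP
  set bs : OrthonormalBasis (Fin k) ℝ V := (stdOrthonormalBasis ℝ V).reindex (finCongr hV) with hbs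
  set gr : (M : ℕ) → (Fin k → Fin M) → E d := fun M q => (bs.repr.symm (gridPt k M q) : V) with hgr
  have hgrV : ∀ M q, gr M q ∈ V := fun M q => (bs.repr.symm (gridPt k M q)).2
  have hgrn : ∀ M : ℕ, 0 < M → ∀ q, ‖gr M q‖ ≤ 1 := by
    intro M hM q
    have e : ‖gr M q‖ = ‖gridPt k M q‖ := by
      rw [hgr]
      simp only
      rw [← Submodule.coe_norm, LinearIsometryEquiv.norm_map]
    rw [e]
    exact gridPt_norm hk hM q
  have hgrs : ∀ (M : ℕ) (q q' : Fin k → Fin M), q ≠ q' →
      1 / (k * M : ℝ) ≤ ‖gr M q - gr M q'‖ := by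
    intro M q q' hne
    have e : ‖gr M q - gr M q'‖ = dist (gridPt k M q) (gridPt k M q') := by
      rw [hgr]
      simp only
      rw [← Submodule.coe_sub, ← Submodule.coe_norm, ← map_sub, LinearIsometryEquiv.norm_map,
        dist_eq_norm]
    rw [e]
    exact gridPt_sep hne
  refine le_iInf₂ fun s hs => ?_
  by_contra hcon
  push Not at hcon
  have hsd : (s : ℝ) < k := by exact_mod_cast hcon
  obtain ⟨C, hC, hb⟩ := hs
  -- the lower bound for the counting function
  have key : ∀ M : ℕ, 0 < M → (M : ℝ) ^ k ≤ C * (8 * k * M) ^ (s : ℝ) := by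
    intro M hM
    have hM0 : (0 : ℝ) < M := by exact_mod_cast hM
    set δ : ℝ := 1 / (k * M) with hδ
    have hδ0 : 0 < δ := by positivity
    have hδ1 : δ ≤ 1 := by
      rw [hδ, div_le_iff₀ (by positivity)]
      have hd1 : (1 : ℝ) ≤ k := by exact_mod_cast hk
      have hM1 : (1 : ℝ) ≤ M := by exact_mod_cast hM
      nlinarith [mul_le_mul hd1 hM1 zero_le_one hk0.le]
    set Q : Finset (E d) := Finset.univ.image (gr M) with hQ
    obtain ⟨W0, hW⟩ := reach hc hO hF hF2 (V := V) (by rw [hV]; exact hkd) Q (by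
      intro v hv
      obtain ⟨q, -, rfl⟩ := Finset.mem_image.mp hv
      exact ⟨hgrV M q, hgrn M hM q⟩) (δ / (4 * (1 + ‖x0‖))) (by positivity)
    choose W hWl hWn hWd using fun q : Fin k → Fin M =>
      hW (gr M q) (Finset.mem_image_of_mem _ (Finset.mem_univ q))
    set cN : ℝ := rr c W0 with hcN
    have hlN : 0 < cN := rr_pos hc W0
    set y0 : E d := P (cN • OO O W0 x0 + tt c O t W0) with hy0
    have hy0F : y0 ∈ P '' F := ⟨_, mem_of_word hF W0 hx0, rfl⟩
    set y : (Fin k → Fin M) → E d := fun q => P (cN • OO O (W q) x0 + tt c O t (W q)) with hy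
    have hyF : ∀ q, y q ∈ P '' F := by
      intro q
      have := mem_of_word hF (W q) hx0
      rw [hWl q] at this
      exact ⟨_, this, rfl⟩
    have hyd : ∀ q, ‖(y q - y0) - cN • gr M q‖ ≤ cN * (δ / 4) := by
      intro q
      have e : (y q - y0) - cN • gr M q = cN • (P (OO O (W q) x0 - OO O W0 x0) +
          (P (cN⁻¹ • (tt c O t (W q) - tt c O t W0)) - gr M q)) := by
        rw [smul_add, smul_sub, ← map_smul, ← map_smul, smul_inv_smul₀ hlN.ne', hy, hy0]
        simp only [map_add, map_sub, map_smul, smul_sub]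
        abel
      rw [e, norm_smul, Real.norm_eq_abs, abs_of_pos hlN]
      apply mul_le_mul_of_nonneg_left _ hlN.le
      refine (norm_add_le _ _).trans ?_
      have h1 : ‖P (OO O (W q) x0 - OO O W0 x0)‖ ≤ δ / (4 * (1 + ‖x0‖)) * ‖x0‖ :=
        (Submodule.norm_starProjection_apply_le _ _).trans (hWn q x0)
      have h2 := hWd q
      have h3 : δ / (4 * (1 + ‖x0‖)) * ‖x0‖ + δ / (4 * (1 + ‖x0‖)) = δ / 4 := by
        have : 1 + ‖x0‖ ≠ 0 := by positivity
        field_simp
        ring
      linarith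
    -- distances
    have hball : ∀ q, y q ∈ Metric.ball y0 (cN * 2) := by
      intro q
      rw [Metric.mem_ball, dist_eq_norm]
      have e : y q - y0 = ((y q - y0) - cN • gr M q) + cN • gr M q := by
        abel
      rw [e]
      calc _ ≤ ‖(y q - y0) - cN • gr M q‖ + ‖cN • gr M q‖ := norm_add_le _ _
        _ ≤ cN * (δ / 4) + cN * 1 := by
            rw [norm_smul, Real.norm_eq_abs, abs_of_pos hlN]
            have := hgrn M hM q
            have := hyd q
            gcongr
        _ < cN * 2 := by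
            rw [← mul_add]
            apply mul_lt_mul_of_pos_left _ hlN
            linarith
    have hsep : ∀ q q', q ≠ q' → cN * (δ / 4) < dist (y q) (y q') := by
      intro q q' hne
      have h2 := hgrs M q q' hne
      rw [← hδ] at h2
      have e : cN • gr M q - cN • gr M q' =
          (y q - y q') - (((y q - y0) - cN • gr M q) - ((y q' - y0) - cN • gr M q')) := by abel
      have h3 : cN * δ ≤ ‖cN • gr M q - cN • gr M q'‖ := by
        rw [← smul_sub, norm_smul, Real.norm_eq_abs, abs_of_pos hlN]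
        gcongr
      rw [e] at h3
      have h4 := norm_sub_le (y q - y q') (((y q - y0) - cN • gr M q) -
            ((y q' - y0) - cN • gr M q'))
      have h5 := norm_sub_le ((y q - y0) - cN • gr M q) ((y q' - y0) - cN • gr M q')
      have h6 := hyd q
      have h7 := hyd q'
      rw [dist_eq_norm]
      have h8 : 0 < cN * δ := by positivity
      linarith
    -- counting
    have hbdd : Bornology.IsBounded (Metric.ball y0 (cN * 2) ∩ P '' F) :=
      Metric.isBounded_ball.subset inter_subset_left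
    have hcount := card_le_coverNum (δ := cN * (δ / 4)) (by positivity) hbdd y
      (fun q => ⟨hball q, hyF q⟩) hsep
    rw [Fintype.card_fun, Fintype.card_fin, Fintype.card_fin] at hcount
    have hcount' : (M : ℝ) ^ k ≤
        (coverNum (cN * (δ / 4)) (Metric.ball y0 (cN * 2) ∩ P '' F) : ℝ) := by
      exact_mod_cast hcount
    have h9 := hb y0 hy0F (cN * (δ / 4)) (cN * 2) (by positivity) (by
      apply mul_lt_mul_of_pos_left _ hlN
      linarith)
    have e2 : cN * 2 / (cN * (δ / 4)) = 8 * k * M := by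
      rw [hδ]
      field_simp
      norm_num
    rw [e2] at h9
    exact hcount'.trans h9
  -- contradiction for large `M`
  have htend : Tendsto (fun M : ℕ => (M : ℝ) ^ ((k : ℝ) - s)) atTop atTop :=
    (tendsto_rpow_atTop (by linarith)).comp tendsto_natCast_atTop_atTop
  obtain ⟨M, hM, hM1⟩ := ((htend.eventually_gt_atTop (C * (8 * k) ^ (s : ℝ))).and
    (eventually_gt_atTop 0)).exists
  have h2 := key M hM1
  have hM0 : (0 : ℝ) < M := by exact_mod_cast hM1
  rw [Real.rpow_sub hM0, Real.rpow_natCast, lt_div_iff₀ (Real.rpow_pos_of_pos hM0 _)] at hM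
  rw [Real.mul_rpow (by positivity) hM0.le, ← mul_assoc] at h2
  linarith

/-- Subsets of a `k`-dimensional subspace satisfy the Assouad bound with exponent `k`. -/
lemma assouadBound_of_subset {V : Submodule ℝ (E d)} (hV : Module.finrank ℝ V = k)
    {G : Set (E d)} (hG : G ⊆ V) : AssouadBound G k := by
  classical
  set bs : OrthonormalBasis (Fin k) ℝ V := (stdOrthonormalBasis ℝ V).reindex (finCongr hV) with hbs
  refine ⟨(4 * k + 2) ^ k, by positivity, ?_⟩
  intro x hx r R hr hrR
  have hR : 0 < R := hr.trans hrR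
  obtain ⟨M, hM1, hM2⟩ : ∃ M : ℕ, 4 * k * R < r * M ∧ (M : ℝ) ≤ (4 * k + 2) * (R / r) := by
    refine ⟨⌊4 * k * R / r⌋₊ + 1, ?_, ?_⟩
    · have := Nat.lt_floor_add_one (4 * k * R / r)
      rw [div_lt_iff₀ hr] at this
      push_cast
      linarith
    · have h1 : 1 ≤ R / r := by
        rw [one_le_div hr]
        exact hrR.le
      have h2 := Nat.floor_le (show 0 ≤ 4 * k * R / r by positivity)
      push_cast
      have h3 : 4 * k * R / r = 4 * k * (R / r) := by ring
      rw [h3] at h2 ⊢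
      linarith
  have hM0 : (0 : ℝ) < M := by
    by_contra h
    push Not at h
    have : r * M ≤ 0 := mul_nonpos_of_nonneg_of_nonpos hr.le h
    have h2 : 0 ≤ 4 * k * R := by positivity
    linarith
  have hMn : 0 < M := by exact_mod_cast hM0
  -- the centres of the covering balls
  set xV : V := ⟨x, hG hx⟩ with hxV
  set ctr : (Fin k → Fin M) → V := fun q => xV + bs.repr.symm
    (WithLp.toLp 2 fun j => -R + 2 * R / M * ((q j : ℕ) : ℝ)) with hctr
  have hcount : coverNum r (Metric.ball x R ∩ G) ≤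
      (Finset.univ : Finset (Fin k → Fin M)).card := by
    apply coverNum_le_of_finset Finset.univ (fun q => Metric.ball (ctr q : E d) (r / 2))
    · rintro y ⟨hy1, hy2⟩
      set yV : V := ⟨y, hG hy2⟩ with hyV
      set z : E k := bs.repr (yV - xV) with hz
      have hzn : ‖z‖ < R := by
        rw [hz, LinearIsometryEquiv.norm_map, Submodule.coe_norm]
        rw [Metric.mem_ball, dist_eq_norm] at hy1
        exact hy1
      have hzj : ∀ j, -R < z j ∧ z j < R := by
        intro j
        have h1 := PiLp.norm_apply_le z j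
        rw [Real.norm_eq_abs] at h1
        exact abs_lt.mp (lt_of_le_of_lt h1 hzn)
      have hq : ∀ j, ∃ q : Fin M, |z j - (-R + 2 * R / M * ((q : ℕ) : ℝ))| ≤ 2 * R / M := by
        intro j
        have h1 : 0 ≤ (z j + R) * M / (2 * R) := by
          have := hzj j
          have : 0 < z j + R := by linarith
          positivity
        have h2 : ⌊(z j + R) * M / (2 * R)⌋₊ < M := by
          rw [Nat.floor_lt h1, div_lt_iff₀ (by positivity)]
          have := (hzj j).2
          nlinarith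
        refine ⟨⟨_, h2⟩, ?_⟩
        have h3 := Nat.floor_le h1
        have h4 := Nat.lt_floor_add_one ((z j + R) * M / (2 * R))
        set n : ℕ := ⌊(z j + R) * M / (2 * R)⌋₊ with hn
        have e : z j = -R + 2 * R / M * ((z j + R) * M / (2 * R)) := by
          field_simp
          ring
        have e2 : z j - (-R + 2 * R / M * (n : ℝ)) =
            2 * R / M * ((z j + R) * M / (2 * R) - n) := by
          conv_lhs => rw [e]
          ring
        rw [e2, abs_mul, abs_of_pos (by positivity : 0 < 2 * R / (M : ℝ))]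
        have h5 : |(z j + R) * M / (2 * R) - n| ≤ 1 := by
          rw [abs_le]
          constructor <;> linarith
        calc 2 * R / M * |(z j + R) * M / (2 * R) - n| ≤ 2 * R / M * 1 := by gcongr
          _ = 2 * R / M := mul_one _
      choose q hq using hq
      refine mem_iUnion₂.mpr ⟨q, Finset.mem_univ q, ?_⟩
      rw [Metric.mem_ball, dist_eq_norm]
      have e : y - (ctr q : E d) = ((yV - ctr q : V) : E d) := rfl
      have e2 : yV - ctr q = bs.repr.symm (z -
          (WithLp.toLp 2 fun j => -R + 2 * R / M * ((q j : ℕ) : ℝ))) := by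
        rw [map_sub, hz, LinearIsometryEquiv.symm_apply_apply, hctr]
        exact sub_add_eq_sub_sub _ _ _
      rw [e, ← Submodule.coe_norm, e2, LinearIsometryEquiv.norm_map]
      refine lt_of_le_of_lt (norm_le_sum _) ?_
      calc ∑ j, |(z - (WithLp.toLp 2 fun j => -R + 2 * R / M * ((q j : ℕ) : ℝ)) : E k) j|
          ≤ ∑ _j : Fin k, 2 * R / (M : ℝ) := Finset.sum_le_sum fun j _ => hq j
        _ = k * (2 * R / M) := by
            rw [Finset.sum_const, Finset.card_univ, Fintype.card_fin, nsmul_eq_mul]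
        _ < r / 2 := by
            have e3 : k * (2 * R / M) = (2 * k * R) / (M : ℝ) := by ring
            rw [e3, div_lt_iff₀ hM0]
            linarith
    · intro q _
      refine ⟨Metric.isOpen_ball, fun a ha b hb => ?_⟩
      rw [Metric.mem_ball] at ha hb
      have := dist_triangle_right a b (ctr q : E d)
      linarith
  rw [Finset.card_univ, Fintype.card_fun, Fintype.card_fin, Fintype.card_fin] at hcount
  have hcount' : (coverNum r (Metric.ball x R ∩ G) : ℝ) ≤ (M : ℝ) ^ k := by exact_mod_cast hcount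
  refine hcount'.trans ?_
  rw [Real.rpow_natCast, ← mul_pow]
  gcongr

end bounds

/-- Orthogonal projections of self-similar sets with dense rotations have full Assouad
dimension. -/
theorem result {d k : ℕ} (hk : 1 ≤ k) (hkd : k < d) {ι : Type} (c : ι → ℝ)
    (hc : ∀ i, 0 < c i ∧ c i < 1) (O : ι → Orth d) (t : ι → E d) (hO : DenseRotations O)
    (F : Set (E d)) (hF : IsAttractor c O t F) (hF2 : F.Nontrivial) (V : Submodule ℝ (E d))
    (hV : Module.finrank ℝ V = k) : dimA (V.starProjection '' F) = k := by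
  apply le_antisymm
  · refine iInf₂_le_of_le (k : ℝ≥0) ?_ ?_
    · refine assouadBound_of_subset hV ?_
      rintro _ ⟨x, -, rfl⟩
      exact V.starProjection_apply_mem x
    · simp
  · exact dimA_ge hk hkd hc hO hF hF2 hV

end Pool.Agent.Results.MP_b41e65_an.Projections
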